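import Pool.Agent.Helper34.ST.Basic

/-!
Module PYT: energy of a refinement, Pythagoras with disjoint witnesses.
-/

set_option autoImplicit false

namespace Pool.Agent.Helper34.ST

open Finset

/-- a class is not empty -/
theorem pyt_pos {Ω δ : Type} [Fintype Ω] (d : Ω → δ) (x : Ω) : (0 : ℝ) < (cl d (d x)).card := by
  classical
  have h : x ∈ cl d (d x) := by
    unfold cl
    exact Finset.mem_filter.2 ⟨Finset.mem_univ _, rfl⟩
  exact_mod_cast Finset.card_pos.2 ⟨x, h⟩

/-- conditional expectations are constant on the classes -/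
theorem pyt_const {Ω δ : Type} [Fintype Ω] (d : Ω → δ) (f u : Ω → ℝ)
    (hu : ∀ x, u x * (cl d (d x)).card = ∑ y ∈ cl d (d x), f y) (x y : Ω) (h : d y = d x) :
    u y = u x := by
  have h1 := hu x
  have h2 := hu y
  rw [h] at h2
  have h3 := (pyt_pos d x).ne'
  exact mul_right_cancel₀ h3 (h2.trans h1.symm)

/-- conditional expectation as a projection -/
theorem pyt_proj {Ω δ : Type} [Fintype Ω] (d : Ω → δ) (f u h : Ω → ℝ)
    (hu : ∀ x, u x * (cl d (d x)).card = ∑ y ∈ cl d (d x), f y)
    (hh : ∀ x y, d y = d x → h y = h x) : ∑ x, u x * h x = ∑ x, f x * h x := by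
  classical
  have e1 : ∀ x, u x * h x = ∑ y, if d y = d x then f y * h y / (cl d (d y)).card else 0 := by
    intro x
    have h0 := (pyt_pos d x).ne'
    have h1 : u x = (∑ y ∈ cl d (d x), f y) / (cl d (d x)).card := by
      rw [eq_div_iff h0]; exact hu x
    have h2 : ∑ y ∈ cl d (d x), f y = ∑ y, if d y = d x then f y else 0 := by
      unfold cl
      rw [Finset.sum_filter]
    rw [h1, h2, Finset.sum_div, Finset.sum_mul]
    refine Finset.sum_congr rfl fun y _ => ?_
    by_cases hy : d y = d x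
    · rw [if_pos hy, if_pos hy, hy, hh x y hy]
      ring
    · rw [if_neg hy, if_neg hy]
      ring
  have e2 : ∀ y, (∑ x, if d y = d x then f y * h y / ((cl d (d y)).card : ℝ) else 0) = f y * h y := by
    intro y
    have h0 := (pyt_pos d y).ne'
    have h2 : (∑ x, if d y = d x then f y * h y / ((cl d (d y)).card : ℝ) else 0) =
        ∑ x ∈ cl d (d y), f y * h y / ((cl d (d y)).card : ℝ) := by
      conv_rhs => unfold cl
      rw [Finset.sum_filter]
      refine Finset.sum_congr rfl fun x _ => ?_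
      by_cases hx : d y = d x
      · rw [if_pos hx, if_pos hx.symm]
        rfl
      · rw [if_neg hx, if_neg (fun h => hx h.symm)]
    rw [h2, Finset.sum_const, nsmul_eq_mul]
    field_simp
  calc ∑ x, u x * h x = ∑ x, ∑ y, (if d y = d x then f y * h y / ((cl d (d y)).card : ℝ) else 0) :=
        Finset.sum_congr rfl fun x _ => e1 x
    _ = ∑ y, ∑ x, (if d y = d x then f y * h y / ((cl d (d y)).card : ℝ) else 0) := Finset.sum_comm
    _ = ∑ y, f y * h y := Finset.sum_congr rfl fun y _ => e2 y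

theorem st_PYT : ST_PYT := by
  classical
  intro Ω κ κ' K _ _ c c' g f a a' B b hc ha ha' hdis hab hB
  have hac : ∀ x y, c' y = c' x → a y = a x := by
    intro x y h
    exact pyt_const c f a ha x y (by rw [hc y, hc x, h])
  have e1 : ∑ x, a' x * a x = ∑ x, f x * a x := pyt_proj c' f a' a ha' hac
  have e2 : ∑ x, a x * a x = ∑ x, f x * a x :=
    pyt_proj c f a a ha (fun x y h => pyt_const c f a ha x y h)
  have e3 : ∑ x, (a' x - a x) ^ 2 = ∑ x, a' x ^ 2 - ∑ x, a x ^ 2 := by
    have h1 : ∑ x, (a' x - a x) ^ 2 = ∑ x, a' x ^ 2 - 2 * ∑ x, a' x * a x + ∑ x, a x * a x := by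
      rw [Finset.mul_sum, ← Finset.sum_sub_distrib, ← Finset.sum_add_distrib]
      exact Finset.sum_congr rfl fun x _ => by ring
    have h2 : ∑ x, a x ^ 2 = ∑ x, a x * a x := Finset.sum_congr rfl fun x _ => by ring
    rw [h1, h2, e1, e2]
    ring
  -- the means over the sets B k
  have e4 : ∀ k, ∑ x ∈ B k, a' x = ∑ x ∈ B k, f x := by
    intro k
    have h1 := pyt_proj c' f a' (fun x => if x ∈ B k then (1 : ℝ) else 0) ha' (by
      intro x y h
      by_cases hx : x ∈ B k
      · simp only [if_pos hx, if_pos (hB k x hx y h)]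
      · have hy : y ∉ B k := fun hy => hx (hB k y hy x h.symm)
        simp only [if_neg hx, if_neg hy])
    simp only [mul_ite, mul_one, mul_zero] at h1
    rw [← Finset.sum_filter, ← Finset.sum_filter] at h1
    have h2 : Finset.univ.filter (fun x => x ∈ B k) = B k := by
      ext x; simp
    rw [h2] at h1
    exact h1
  have e5 : ∀ k, ((∑ x ∈ B k, f x) - b k * (B k).card) ^ 2 / (B k).card ≤
      ∑ x ∈ B k, (a' x - a x) ^ 2 := by
    intro k
    have h1 : (∑ x ∈ B k, f x) - b k * (B k).card = ∑ x ∈ B k, (a' x - a x) := by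
      rw [Finset.sum_sub_distrib, e4 k]
      have : ∑ x ∈ B k, a x = ∑ x ∈ B k, b k := Finset.sum_congr rfl fun x hx => hab k x hx
      rw [this, Finset.sum_const, nsmul_eq_mul]
      ring
    rw [h1]
    rcases Nat.eq_zero_or_pos (B k).card with h0 | h0
    · rw [h0]
      simp only [Nat.cast_zero, div_zero]
      exact Finset.sum_nonneg fun x _ => sq_nonneg _
    · have h0' : (0 : ℝ) < (B k).card := by exact_mod_cast h0
      rw [div_le_iff₀ h0', mul_comm]
      exact sq_sum_le_card_mul_sum_sq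
  have e6 : ∑ k, ∑ x ∈ B k, (a' x - a x) ^ 2 ≤ ∑ x, (a' x - a x) ^ 2 := by
    rw [← Finset.sum_biUnion (fun k _ l _ hkl => hdis k l hkl)]
    exact Finset.sum_le_sum_of_subset_of_nonneg (Finset.subset_univ _) fun x _ _ => sq_nonneg _
  have e7 : ∑ k, ((∑ x ∈ B k, f x) - b k * (B k).card) ^ 2 / (B k).card ≤
      ∑ k, ∑ x ∈ B k, (a' x - a x) ^ 2 := Finset.sum_le_sum fun k _ => e5 k
  linarith

end Pool.Agent.Helper34.ST
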